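import Pool.Agent.Lib.MP_5f1e54_an.DR.Final
import Pool.Agent.Lib.MP_5f1e54_an.DR.Stmt

/-!
# MP_5f1e54_an: the dimension representation of `I + m J` is onto

For all `n, m ≥ 1` and the primitive matrix `A = I + m J` (`J` the all-ones matrix of size `n`; eigenvalues
`1 + m n` and `1`, the latter with multiplicity `n - 1`), every element of `aut(Δ_A)` is in the image of
`s_A : aut(X_A) → aut(Δ_A)`.
-/

namespace Pool.Agent.Results.MP_5f1e54_an.AllOnesShift

open Pool.Agent.DimRep

theorem result (n m : ℕ) (hn : 1 ≤ n) (hm : 1 ≤ m) (ψ : (Fin n → ℚ) → (Fin n → ℚ))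
    (hψ : IsDimAut (IJ n m) ψ) : InImageOfDimRep (IJ n m) ψ :=
  hψ.inImage (main n m hn hm hψ.equiv hψ.isAut)

end Pool.Agent.Results.MP_5f1e54_an.AllOnesShift
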