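import Pool.Agent.Lib.MP_5f1e54_an.UE.Main

/-!
# MP_5f1e54_an: the dimension representation of 2 x 2 matrices with integer eigenvalues

`A` is a 2 x 2 matrix over `ℕ` with `A₀₁, A₁₀ ≠ 0` and integer eigenvalues `λ > |μ| > 0`. Let `m` be the gcd of the entries of
`A - μ I` and `g = (λ - μ) / m` (the index in `ℤ²` of the sum of the two eigenlattices), and let `g` be coprime to `μ`. If
`|μ| = 1`, or if `p |μ| (g - 1)² ≤ λ` for every prime `p ∣ λ`, then `s_A : aut(X_A) → aut(Δ_A)` is onto.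
-/

open Matrix

namespace Pool.Agent.Results.MP_5f1e54_an.IntegerEigenvalues

open Pool.Agent.DimRep

/-- the eigenvalue `tr A - μ` -/
def other (A : Matrix (Fin 2) (Fin 2) ℕ) (μ : ℤ) : ℤ := A 0 0 + A 1 1 - μ

/-- the gcd of the four entries of `A - μ I` -/
def content (A : Matrix (Fin 2) (Fin 2) ℕ) (μ : ℤ) : ℕ :=
  Nat.gcd (Int.gcd (A 0 0 - μ) (A 0 1)) (Int.gcd (A 1 0) (A 1 1 - μ))

theorem result (A : Matrix (Fin 2) (Fin 2) ℕ) (μ g : ℤ) (h01 : A 0 1 ≠ 0) (h10 : A 1 0 ≠ 0) (hμ : μ ≠ 0)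
    (hdet : ((A 0 0 : ℤ) - μ) * (A 1 1 - μ) = A 0 1 * A 1 0) (hlam : |μ| < other A μ)
    (hg : other A μ - μ = g * content A μ) (hcop : IsCoprime g μ)
    (hp : ∀ p : ℕ, p.Prime → (p : ℤ) ∣ other A μ → |μ| = 1 ∨ p * |μ| * (g - 1) ^ 2 ≤ other A μ) :
    (∀ i j, 0 < (A ^ 2) i j) ∧
      ∀ ψ : (Fin 2 → ℚ) → (Fin 2 → ℚ), IsDimAut A ψ → InImageOfDimRep A ψ := by
  have hb : (1 : ℤ) ≤ A 0 1 := by omega
  have hc : (1 : ℤ) ≤ A 1 0 := by omega
  have habs := abs_nonneg μ
  have hle1 := le_abs_self μ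
  have hle2 := neg_abs_le μ
  have hother : other A μ = A 0 0 + A 1 1 - μ := rfl
  have htr : 0 < (A 0 0 : ℤ) + A 1 1 := by omega
  refine ⟨?_, ?_⟩
  · have htr' : 0 < A 0 0 + A 1 1 := by exact_mod_cast htr
    have hb' : 0 < A 0 1 := Nat.pos_of_ne_zero h01
    have hc' : 0 < A 1 0 := Nat.pos_of_ne_zero h10
    intro i j
    rw [pow_two, Matrix.mul_apply, Fin.sum_univ_two]
    fin_cases i <;> fin_cases j
    · show 0 < A 0 0 * A 0 0 + A 0 1 * A 1 0
      positivity
    · show 0 < A 0 0 * A 0 1 + A 0 1 * A 1 1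
      have : 0 < (A 0 0 + A 1 1) * A 0 1 := by positivity
      linarith
    · show 0 < A 1 0 * A 0 0 + A 1 1 * A 1 0
      have : 0 < (A 0 0 + A 1 1) * A 1 0 := by positivity
      linarith
    · show 0 < A 1 0 * A 0 1 + A 1 1 * A 1 1
      positivity
  · intro ψ hψ
    -- `A - μ I` has positive entries
    have ha1 : 1 ≤ (A 0 0 : ℤ) - μ := by
      have h1 : 0 < ((A 0 0 : ℤ) - μ) * ((A 1 1 : ℤ) - μ) := by
        rw [hdet]
        positivity
      by_contra hn
      have h2 : (A 0 0 : ℤ) - μ ≤ 0 := by omega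
      have h4 : (A 1 1 : ℤ) - μ < 0 := by
        by_contra hq
        have := mul_nonpos_of_nonpos_of_nonneg h2 (not_lt.1 hq)
        omega
      omega
    obtain ⟨R0, R1, l0, l1, p1, p2, p3, p4, hcl, q1, q2, q3, q4⟩ := UE.rank_one (a := (A 0 0 : ℤ) - μ)
      (b := A 0 1) (c := A 1 0) (d := (A 1 1 : ℤ) - μ) ha1 hb hc hdet
    -- the content
    have hcont : content A μ = Int.gcd R0 R1 := by
      unfold content
      rw [q1, q2, q3, q4, Int.gcd_mul_left, Int.gcd_mul_left, Int.isCoprime_iff_gcd_eq_one.1 hcl, mul_one, mul_one]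
      rfl
    have hmpos : 0 < Int.gcd R0 R1 := Int.gcd_pos_of_ne_zero_left R1 (by omega)
    obtain ⟨r0, hr0⟩ := Int.gcd_dvd_left R0 R1
    obtain ⟨r1, hr1⟩ := Int.gcd_dvd_right R0 R1
    have hcr : IsCoprime r0 r1 := by
      have h1 := Int.gcd_ediv_gcd_ediv_gcd (i := R0) (j := R1) hmpos
      have hne : ((Int.gcd R0 R1 : ℕ) : ℤ) ≠ 0 := by exact_mod_cast hmpos.ne'
      have h2 : R0 / (Int.gcd R0 R1 : ℤ) = r0 := Int.ediv_eq_of_eq_mul_right hne hr0
      have h3 : R1 / (Int.gcd R0 R1 : ℤ) = r1 := Int.ediv_eq_of_eq_mul_right hne hr1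
      rw [h2, h3] at h1
      exact Int.isCoprime_iff_gcd_eq_one.2 h1
    rw [hcont] at hg
    have hm1 : (1 : ℤ) ≤ (Int.gcd R0 R1 : ℤ) := by exact_mod_cast hmpos
    generalize (Int.gcd R0 R1 : ℤ) = m at hr0 hr1 hg hm1
    have s0 : 1 ≤ r0 := by
      have : 0 < m * r0 := by omega
      have := (mul_pos_iff_of_pos_left (by omega)).1 this
      omega
    have s1 : 1 ≤ r1 := by
      have : 0 < m * r1 := by omega
      have := (mul_pos_iff_of_pos_left (by omega)).1 this
      omega
    have hgg : r0 * l0 + r1 * l1 = g := by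
      apply mul_left_cancel₀ (by omega : m ≠ 0)
      have e1 : (A 0 0 : ℤ) - μ + (A 1 1 - μ) = g * m := by
        rw [← hg, hother]; ring
      rw [q1, q4, hr0, hr1] at e1
      linear_combination e1
    have hg2 : 2 ≤ g := by
      have t1 : 0 < r0 * l0 := mul_pos (by omega) (by omega)
      have t2 : 0 < r1 * l1 := mul_pos (by omega) (by omega)
      omega
    have hlam' : other A μ = m * g + μ := by linarith
    -- the size of `m`
    have hsize : -μ ≤ m ∧ (3 ≤ g → μ ≤ m) := by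
      rcases eq_or_ne |μ| 1 with h1 | h1
      · omega
      · have hmu2 : 2 ≤ |μ| := by
          have := Int.one_le_abs hμ
          omega
        have hL : (other A μ).natAbs ≠ 1 := by omega
        obtain ⟨p, hpp, hpd⟩ := Nat.exists_prime_and_dvd hL
        have h2 := (hp p hpp (Int.natCast_dvd.2 hpd)).resolve_left h1
        have hp2 : (2 : ℤ) ≤ p := by exact_mod_cast hpp.two_le
        have h3 : 2 * |μ| * (g - 1) ^ 2 ≤ m * g + μ := by
          rw [← hlam']
          refine le_trans ?_ h2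
          have h8 : 0 ≤ |μ| * (g - 1) ^ 2 := mul_nonneg habs (sq_nonneg _)
          have h9 := mul_le_mul_of_nonneg_right hp2 h8
          rw [mul_assoc, mul_assoc]
          exact h9
        constructor
        · by_contra hcon
          have h4 : m < -μ := not_le.1 hcon
          have h5 : |μ| = -μ := abs_of_neg (by omega)
          rw [h5] at h3
          have h6 : m * g ≤ (-μ) * g := mul_le_mul_of_nonneg_right h4.le (by omega)
          have h7 : 0 < (-μ) * (2 * (g - 1) ^ 2 - g + 1) := by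
            apply mul_pos (by omega)
            obtain ⟨k, hk⟩ : ∃ k, g = k + 2 := ⟨g - 2, by ring⟩
            have hk0 : 0 ≤ k := by omega
            have : 2 * (g - 1) ^ 2 - g + 1 = 2 * k ^ 2 + 3 * k + 1 := by rw [hk]; ring
            rw [this]
            positivity
          linarith
        · intro hg3
          by_contra hcon
          have h4 : m < μ := not_le.1 hcon
          have h5 : |μ| = μ := abs_of_pos (by omega)
          rw [h5] at h3
          have h6 : m * g ≤ μ * g := mul_le_mul_of_nonneg_right h4.le (by omega)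
          have h7 : 0 < μ * (2 * (g - 1) ^ 2 - g - 1) := by
            apply mul_pos (by omega)
            obtain ⟨k, hk⟩ : ∃ k, g = k + 3 := ⟨g - 3, by ring⟩
            have hk0 : 0 ≤ k := by omega
            have : 2 * (g - 1) ^ 2 - g - 1 = 2 * k ^ 2 + 7 * k + 4 := by rw [hk]; ring
            rw [this]
            positivity
          linarith
    have hctx : UE.Ctx μ m g (other A μ) :=
      ⟨hμ, hm1, hsize.1, hg2, hcop, hlam', by omega, hp⟩
    refine UE.main hctx hsize.2 s0 s1 p3 p4 hcr hcl hgg ?_ hψ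
    have e00 : (A 0 0 : ℤ) = m * (r0 * l0) + μ := by rw [← mul_assoc, ← hr0, ← q1]; ring
    have e01 : (A 0 1 : ℤ) = m * (r0 * l1) := by rw [← mul_assoc, ← hr0, ← q2]
    have e10 : (A 1 0 : ℤ) = m * (r1 * l0) := by rw [← mul_assoc, ← hr1, ← q3]
    have e11 : (A 1 1 : ℤ) = m * (r1 * l1) + μ := by rw [← mul_assoc, ← hr1, ← q4]; ring
    ext i j
    fin_cases i <;> fin_cases j
    · exact e00
    · exact e01
    · exact e10
    · exact e11

end Pool.Agent.Results.MP_5f1e54_an.IntegerEigenvalues
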