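import Pool.Agent.Lib.MP_5f1e54_an.TN.Main

/-!
# MP_5f1e54_an: the dimension representation of 2 x 2 matrices with determinant at most (tr)² / 9

Let `A` be a 2 x 2 matrix over `ℕ` with irrational eigenvalues, `det A ≠ 0` and
`- tr A ≤ det A ≤ (tr A)² / 9`. Then `s_A : aut(X_A) → aut(Δ_A)` is onto.
-/

open Matrix

namespace Pool.Agent.Results.MP_5f1e54_an.TwoByTwoNinth

open Pool.Agent.DimRep

/-- the trace -/
def trc (A : Matrix (Fin 2) (Fin 2) ℕ) : ℤ := A 0 0 + A 1 1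

/-- the determinant -/
def dtm (A : Matrix (Fin 2) (Fin 2) ℕ) : ℤ := A 0 0 * A 1 1 - A 0 1 * A 1 0

theorem result (A : Matrix (Fin 2) (Fin 2) ℕ) (h0 : dtm A ≠ 0) (h1 : -trc A ≤ dtm A)
    (h2 : ¬ IsSquare (trc A ^ 2 - 4 * dtm A)) (h3 : 9 * dtm A ≤ trc A ^ 2) :
    (∀ i j, 0 < (A ^ 2) i j) ∧
      ∀ ψ : (Fin 2 → ℚ) → (Fin 2 → ℚ), IsDimAut A ψ → InImageOfDimRep A ψ := by
  have ht : trc A = ((A 0 0 + A 1 1 : ℕ) : ℤ) := by
    unfold trc
    push_cast
    rfl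
  have hA : TB2.Cls (A 0 0 + A 1 1) (dtm A) A := ⟨rfl, by unfold dtm; ring⟩
  have h : TB2.Irr (A 0 0 + A 1 1) (dtm A) := by
    refine ⟨⟨h0, by rw [← ht]; exact h1⟩, fun n hn => h2 ⟨n, ?_⟩⟩
    rw [ht, ← hn, pow_two]
  obtain ⟨e1, e2⟩ := hA.entries h
  refine ⟨?_, fun ψ hψ => TN.main3 h hA (by rw [← ht]; exact h3) hψ⟩
  · have e0 : 0 < A 0 0 + A 1 1 := by
      rcases Nat.eq_zero_or_pos (A 0 0 + A 1 1) with h7 | h7
      · exfalso
        have h4 : A 0 0 = 0 := by omega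
        have h5 : A 1 1 = 0 := by omega
        have h6 : 0 < (A 0 1 : ℤ) * A 1 0 := by positivity
        unfold trc dtm at h1
        rw [h4, h5] at h1
        simp only [Nat.cast_zero, mul_zero, add_zero, neg_zero, zero_sub] at h1
        linarith
      · exact h7
    intro i j
    rw [pow_two, Matrix.mul_apply, Fin.sum_univ_two]
    fin_cases i <;> fin_cases j
    · show 0 < A 0 0 * A 0 0 + A 0 1 * A 1 0
      positivity
    · show 0 < A 0 0 * A 0 1 + A 0 1 * A 1 1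
      have : 0 < (A 0 0 + A 1 1) * A 0 1 := by positivity
      linarith
    · show 0 < A 1 0 * A 0 0 + A 1 1 * A 1 0
      have : 0 < (A 0 0 + A 1 1) * A 1 0 := by positivity
      linarith
    · show 0 < A 1 0 * A 0 1 + A 1 1 * A 1 1
      positivity

end Pool.Agent.Results.MP_5f1e54_an.TwoByTwoNinth
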